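import Mathlib

/-!
Linear and cubic forms in fifteen real variables with integer coefficients, given by tables, their
behaviour under permutations of the variables, and the loops for the check of the certificate.
-/

namespace Pool.Agent.Lib.MP_d90615_co.PC

open Finset

/-- A linear form with integer coefficients. -/
noncomputable def lf (h : Fin 15 → ℤ) (x : Fin 15 → ℝ) : ℝ := ∑ i, (h i : ℝ) * x i

lemma lf_nonneg {h : Fin 15 → ℤ} {x : Fin 15 → ℝ} (hh : ∀ i, 0 ≤ h i) (hx : ∀ i, 0 ≤ x i) :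
    0 ≤ lf h x :=
  Finset.sum_nonneg fun i _ => mul_nonneg (by exact_mod_cast hh i) (hx i)

/-- A cubic form with integer coefficients. -/
noncomputable def cf (f : Fin 15 → Fin 15 → Fin 15 → ℤ) (x : Fin 15 → ℝ) : ℝ :=
  ∑ i, ∑ j, ∑ l, (f i j l : ℝ) * (x i * x j * x l)

lemma cf_nonneg {f : Fin 15 → Fin 15 → Fin 15 → ℤ} {x : Fin 15 → ℝ} (hf : ∀ i j l, 0 ≤ f i j l)
    (hx : ∀ i, 0 ≤ x i) : 0 ≤ cf f x :=
  Finset.sum_nonneg fun i _ => Finset.sum_nonneg fun j _ => Finset.sum_nonneg fun l _ =>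
    mul_nonneg (by exact_mod_cast hf i j l) (mul_nonneg (mul_nonneg (hx i) (hx j)) (hx l))

lemma cf_add (f g : Fin 15 → Fin 15 → Fin 15 → ℤ) (x : Fin 15 → ℝ) :
    cf (fun i j l => f i j l + g i j l) x = cf f x + cf g x := by
  simp only [cf, ← Finset.sum_add_distrib]
  refine Finset.sum_congr rfl fun i _ => Finset.sum_congr rfl fun j _ =>
    Finset.sum_congr rfl fun l _ => ?_
  push_cast
  ring

lemma cf_sum {ι : Type*} (s : Finset ι) (f : ι → Fin 15 → Fin 15 → Fin 15 → ℤ) (x : Fin 15 → ℝ) :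
    cf (fun i j l => ∑ k ∈ s, f k i j l) x = ∑ k ∈ s, cf (f k) x := by
  classical
  induction s using Finset.induction_on with
  | empty => simp [cf]
  | insert a s ha ih =>
    rw [Finset.sum_insert ha, ← ih, ← cf_add]
    congr 1
    funext i j l
    rw [Finset.sum_insert ha]

/-- A product of three linear forms is a cubic form. -/
lemma lf_mul (u v w : Fin 15 → ℤ) (x : Fin 15 → ℝ) :
    lf u x * lf v x * lf w x = cf (fun i j l => u i * v j * w l) x := by
  rw [lf, lf, lf, cf, Finset.sum_mul_sum, Finset.sum_mul]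
  refine Finset.sum_congr rfl fun i _ => ?_
  rw [Finset.sum_mul]
  refine Finset.sum_congr rfl fun j _ => ?_
  rw [Finset.mul_sum]
  refine Finset.sum_congr rfl fun l _ => ?_
  push_cast
  ring

/-- Exchanging the first two indices. -/
lemma cf_swap (f : Fin 15 → Fin 15 → Fin 15 → ℤ) (x : Fin 15 → ℝ) :
    cf (fun i j l => f j i l) x = cf f x := by
  simp only [cf]
  rw [Finset.sum_comm]
  refine Finset.sum_congr rfl fun i _ => Finset.sum_congr rfl fun j _ =>
    Finset.sum_congr rfl fun l _ => ?_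
  ring

/-- Rotating the indices. -/
lemma cf_rot (f : Fin 15 → Fin 15 → Fin 15 → ℤ) (x : Fin 15 → ℝ) :
    cf (fun i j l => f j l i) x = cf f x := by
  simp only [cf]
  rw [Finset.sum_comm]
  refine Finset.sum_congr rfl fun j _ => ?_
  rw [Finset.sum_comm]
  refine Finset.sum_congr rfl fun l _ => Finset.sum_congr rfl fun i _ => ?_
  ring

/-- Permuting the variables. -/
lemma cf_perm (f : Fin 15 → Fin 15 → Fin 15 → ℤ) (x : Fin 15 → ℝ) (g q : Fin 15 → Fin 15)
    (hg : Function.Bijective g) (hq : ∀ i, q (g i) = i) :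
    cf f (x ∘ g) = cf (fun i j l => f (q i) (q j) (q l)) x := by
  simp only [cf, Function.comp]
  symm
  rw [← hg.sum_comp]
  refine Finset.sum_congr rfl fun i _ => ?_
  rw [← hg.sum_comp]
  refine Finset.sum_congr rfl fun j _ => ?_
  rw [← hg.sum_comp]
  refine Finset.sum_congr rfl fun l _ => ?_
  rw [hq, hq, hq]

/-- The sum of the values of a cubic form at the images of `x` under a family of permutations is
nonnegative if its symmetrised coefficients are nonnegative. -/
lemma sum_perm_nonneg {n : ℕ} (f : Fin 15 → Fin 15 → Fin 15 → ℤ) (x : Fin 15 → ℝ)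
    (hx : ∀ i, 0 ≤ x i) (g q : Fin n → Fin 15 → Fin 15) (hg : ∀ k, Function.Bijective (g k))
    (hq : ∀ k i, q k (g k i) = i)
    (h : ∀ i j l, 0 ≤ ∑ k, (f (q k i) (q k j) (q k l) + f (q k j) (q k l) (q k i)
      + f (q k l) (q k i) (q k j) + f (q k j) (q k i) (q k l) + f (q k i) (q k l) (q k j)
      + f (q k l) (q k j) (q k i))) :
    0 ≤ ∑ k, cf f (x ∘ g k) := by
  have h1 := cf_nonneg h hx
  rw [cf_sum] at h1
  have h2 : ∀ k, cf (fun i j l => (f (q k i) (q k j) (q k l) + f (q k j) (q k l) (q k i)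
      + f (q k l) (q k i) (q k j) + f (q k j) (q k i) (q k l) + f (q k i) (q k l) (q k j)
      + f (q k l) (q k j) (q k i))) x = 6 * cf f (x ∘ g k) := by
    intro k
    have e0 := cf_perm f x (g k) (q k) (hg k) (hq k)
    have e1 := cf_rot (fun i j l => f (q k i) (q k j) (q k l)) x
    have e2 := cf_rot (fun i j l => f (q k j) (q k l) (q k i)) x
    have e3 := cf_swap (fun i j l => f (q k i) (q k j) (q k l)) x
    have e4 := cf_rot (fun i j l => f (q k j) (q k i) (q k l)) x
    have e5 := cf_rot (fun i j l => f (q k l) (q k j) (q k i)) x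
    simp only [cf_add]
    linarith
  rw [Finset.sum_congr rfl fun k _ => h2 k, ← Finset.mul_sum] at h1
  linarith

/-- Reading an entry, of `64` bits with an offset, from a table. -/
def ent (N i : ℕ) : ℤ := ((N >>> (64 * i)) % 18446744073709551616 : ℕ) - 9223372036854775808

/-- Reading an entry, of `128` bits with an offset, from a table. -/
def ent2 (N i : ℕ) : ℤ :=
  ((N >>> (128 * i)) % 340282366920938463463374607431768211456 : ℕ)
    - 170141183460469231731687303715884105728

/-- `p k` for all `k < n`. -/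
def allT (n : ℕ) (p : ℕ → Bool) : Bool := Nat.rec true (fun k b => p k && b) n

lemma allT_spec {n : ℕ} {p : ℕ → Bool} (h : allT n p = true) : ∀ k < n, p k = true := by
  induction n with
  | zero => intro k hk; omega
  | succ n ih =>
    have h' : (p n && allT n p) = true := h
    rw [Bool.and_eq_true] at h'
    intro k hk
    rcases Nat.lt_succ_iff_lt_or_eq.mp hk with h1 | h1
    · exact ih h'.2 k h1
    · rw [h1]
      exact h'.1

/-- The sum of `g k` over `k < n`. -/
def sumT (n : ℕ) (g : ℕ → ℤ) : ℤ := Nat.rec 0 (fun k s => s + g k) n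

lemma sumT_eq (n : ℕ) (g : ℕ → ℤ) : sumT n g = ∑ k ∈ range n, g k := by
  induction n with
  | zero => rfl
  | succ n ih =>
    rw [Finset.sum_range_succ, ← ih]
    rfl

/-- Reading a bit. -/
def bt (N i : ℕ) : ℤ := ((N >>> i) % 2 : ℕ)

/-- Reading an entry of a table in three variables. -/
def ent3 (N i j l : ℕ) : ℤ :=
  ((((((N >>> (28800 * i)) % 2 ^ 28800) >>> (1920 * j)) % 2 ^ 1920) >>> (128 * l)) % 2 ^ 128 : ℕ)
    - 170141183460469231731687303715884105728

/-- The symmetrised entry. -/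
def sy3 (N i j l : ℕ) : ℤ :=
  ent3 N i j l + ent3 N j l i + ent3 N l i j + ent3 N j i l + ent3 N i l j + ent3 N l j i

lemma cf_sub (f g : Fin 15 → Fin 15 → Fin 15 → ℤ) (x : Fin 15 → ℝ) :
    cf (fun i j l => f i j l - g i j l) x = cf f x - cf g x := by
  simp only [cf, ← Finset.sum_sub_distrib]
  refine Finset.sum_congr rfl fun i _ => Finset.sum_congr rfl fun j _ =>
    Finset.sum_congr rfl fun l _ => ?_
  push_cast
  ring

lemma cf_smul (c : ℤ) (f : Fin 15 → Fin 15 → Fin 15 → ℤ) (x : Fin 15 → ℝ) :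
    cf (fun i j l => c * f i j l) x = c * cf f x := by
  simp only [cf, Finset.mul_sum]
  refine Finset.sum_congr rfl fun i _ => Finset.sum_congr rfl fun j _ =>
    Finset.sum_congr rfl fun l _ => ?_
  push_cast
  ring

/-- A row of a table. -/
def row (T c : ℕ) : Fin 15 → ℤ := fun i => ent T (15 * c + i.val)

/-- A vector of bits. -/
def bv (N : ℕ) : Fin 15 → ℤ := fun i => bt N i.val

/-- The quadratic form `y₄ y₀ - y₁ y₂ - y₂ y₃ - y₃ y₁`, for coordinates given by bits. -/
noncomputable def kq (y4 y0 y1 y2 y3 : ℕ) (x : Fin 15 → ℝ) : ℝ :=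
  lf (bv y4) x * lf (bv y0) x - lf (bv y1) x * lf (bv y2) x - lf (bv y2) x * lf (bv y3) x
    - lf (bv y3) x * lf (bv y1) x

/-- Its coefficients. -/
def kc (y4 y0 y1 y2 y3 i j : ℕ) : ℤ :=
  bt y4 i * bt y0 j - bt y1 i * bt y2 j - bt y2 i * bt y3 j - bt y3 i * bt y1 j

lemma kq_mul (y4 y0 y1 y2 y3 : ℕ) (w : Fin 15 → ℤ) (x : Fin 15 → ℝ) :
    kq y4 y0 y1 y2 y3 x * lf w x = cf (fun i j l => kc y4 y0 y1 y2 y3 i.val j.val * w l) x := by
  have h : (fun i j l : Fin 15 => kc y4 y0 y1 y2 y3 i.val j.val * w l) = fun i j l =>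
      bv y4 i * bv y0 j * w l - bv y1 i * bv y2 j * w l - bv y2 i * bv y3 j * w l
        - bv y3 i * bv y1 j * w l := by
    funext i j l
    simp only [kc, bv]
    ring
  rw [h, cf_sub, cf_sub, cf_sub, ← lf_mul, ← lf_mul, ← lf_mul, ← lf_mul, kq]
  ring

/-- The quadratic form `h₁ h₂ - h₀ h₁₂`, for coordinates given by rows of tables. -/
noncomputable def hq (H0 H1 H2 H3 c : ℕ) (x : Fin 15 → ℝ) : ℝ :=
  lf (row H1 c) x * lf (row H2 c) x - lf (row H0 c) x * lf (row H3 c) x

/-- Its coefficients. -/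
def hc (H0 H1 H2 H3 c i j : ℕ) : ℤ :=
  ent H1 (15 * c + i) * ent H2 (15 * c + j) - ent H0 (15 * c + i) * ent H3 (15 * c + j)

lemma hq_mul (H0 H1 H2 H3 c : ℕ) (w : Fin 15 → ℤ) (x : Fin 15 → ℝ) :
    hq H0 H1 H2 H3 c x * lf w x = cf (fun i j l => hc H0 H1 H2 H3 c i.val j.val * w l) x := by
  have h : (fun i j l : Fin 15 => hc H0 H1 H2 H3 c i.val j.val * w l) = fun i j l =>
      row H1 c i * row H2 c j * w l - row H0 c i * row H3 c j * w l := by
    funext i j l
    simp only [hc, row]
    ring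
  rw [h, cf_sub, ← lf_mul, ← lf_mul, hq]
  ring

/-- The coefficients of the certificate: a multiple of the wanted form minus a combination of the
`nH + 3` known forms. The wanted form is `p zₑ z_f - q z z_ef`. -/
def fE (H0 H1 H2 H3 KT nH : ℕ) (p q : ℤ) (i j l : ℕ) : ℤ :=
  (p * (bt 32736 i * bt 24022 j) - q * (bt 32767 i * bt 23680 j)) * ent KT l
    - kc 3 30720 28 1792 224 i j * ent KT (15 + l)
    - kc 864 16384 1152 8192 6144 i j * ent KT (30 + l)
    - kc 780 16384 1040 4096 10240 i j * ent KT (45 + l)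
    - sumT nH fun c => hc H0 H1 H2 H3 c i j * ent KT (60 + 15 * c + l)

/-- The value of the certificate. -/
lemma cf_fE (H0 H1 H2 H3 KT nH : ℕ) (p q : ℤ) (x : Fin 15 → ℝ) :
    cf (fun i j l => fE H0 H1 H2 H3 KT nH p q i.val j.val l.val) x =
      (p * (lf (bv 32736) x * lf (bv 24022) x) - q * (lf (bv 32767) x * lf (bv 23680) x))
          * lf (row KT 0) x
        - kq 3 30720 28 1792 224 x * lf (row KT 1) x
        - kq 864 16384 1152 8192 6144 x * lf (row KT 2) x
        - kq 780 16384 1040 4096 10240 x * lf (row KT 3) x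
        - ∑ c ∈ range nH, hq H0 H1 H2 H3 c x * lf (row KT (4 + c)) x := by
  have h : (fun i j l : Fin 15 => fE H0 H1 H2 H3 KT nH p q i.val j.val l.val) = fun i j l =>
      p * (bv 32736 i * bv 24022 j * row KT 0 l) - q * (bv 32767 i * bv 23680 j * row KT 0 l)
        - kc 3 30720 28 1792 224 i.val j.val * row KT 1 l
        - kc 864 16384 1152 8192 6144 i.val j.val * row KT 2 l
        - kc 780 16384 1040 4096 10240 i.val j.val * row KT 3 l
        - ∑ c ∈ range nH, hc H0 H1 H2 H3 c i.val j.val * row KT (4 + c) l := by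
    funext i j l
    have e0 : row KT 0 l = ent KT l.val := by simp [row]
    have e1 : row KT 1 l = ent KT (15 + l.val) := by simp [row]
    have e2 : row KT 2 l = ent KT (30 + l.val) := by simp [row]
    have e3 : row KT 3 l = ent KT (45 + l.val) := by simp [row]
    have e4 : ∀ c, row KT (4 + c) l = ent KT (60 + 15 * c + l.val) := by
      intro c
      rw [row]
      congr 1
      ring
    simp only [fE, sumT_eq, e0, e1, e2, e3, e4, bv]
    ring
  rw [h, cf_sub, cf_sub, cf_sub, cf_sub, cf_sub, cf_smul, cf_smul, cf_sum, ← lf_mul, ← lf_mul,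
    ← kq_mul, ← kq_mul, ← kq_mul]
  simp only [← hq_mul]
  ring

end Pool.Agent.Lib.MP_d90615_co.PC
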