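import Pool.Agent.Lib.MP_d90615_co.Mg.G036
import Pool.Agent.Lib.MP_d90615_co.PC.Alg

/-!
The vector of the fifteen pattern counts of four vertices: its behaviour under the exchanges of
the vertices, the Rayleigh inequality of the pinned forest sum for integer data, and the
inequalities for three terminals.
-/

namespace Pool.Agent.Lib.MP_d90615_co.PC

open Matrix Finset
open scoped Classical

variable {V E : Type*}

/-- The fifteen pattern counts. -/
noncomputable def pv (ends : E → Sym2 V) (S : Finset E) (a b c d : V) : Fin 15 → ℝ :=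
  ![xb ends S a b c d true true true true true true,
    xb ends S a b c d true true false true false false,
    xb ends S a b c d true false true false true false,
    xb ends S a b c d true false false false false true,
    xb ends S a b c d true false false false false false,
    xb ends S a b c d false true true false false true,
    xb ends S a b c d false true false false true false,
    xb ends S a b c d false true false false false false,
    xb ends S a b c d false false true true false false,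
    xb ends S a b c d false false false true true true,
    xb ends S a b c d false false false true false false,
    xb ends S a b c d false false true false false false,
    xb ends S a b c d false false false false true false,
    xb ends S a b c d false false false false false true,
    xb ends S a b c d false false false false false false]

lemma pv_nonneg (ends : E → Sym2 V) (S : Finset E) (a b c d : V) (i : Fin 15) :
    0 ≤ pv ends S a b c d i := by
  fin_cases i <;> exact xb_nonneg _ _ _ _ _ _ _ _ _ _ _ _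

/-- A sum over `Fin 15`, written out. -/
lemma sum15 (f : Fin 15 → ℝ) : ∑ i, f i = f 0 + f 1 + f 2 + f 3 + f 4 + f 5 + f 6 + f 7 + f 8
    + f 9 + f 10 + f 11 + f 12 + f 13 + f 14 := by
  simp only [Fin.sum_univ_castSucc, Finset.univ_eq_empty, Finset.sum_empty, zero_add]
  rfl

/-- The connection matrix of a pattern. -/
def Jof (p q s u k l : ℤ) : Matrix (Fin 4) (Fin 4) ℤ :=
  !![1, p, q, s; p, 1, u, k; q, u, 1, l; s, k, l, 1]

/-- The connection matrices of the fifteen patterns. -/
def Jz : Fin 15 → Matrix (Fin 4) (Fin 4) ℤ :=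
  ![Jof 1 1 1 1 1 1, Jof 1 1 0 1 0 0, Jof 1 0 1 0 1 0, Jof 1 0 0 0 0 1, Jof 1 0 0 0 0 0,
    Jof 0 1 1 0 0 1, Jof 0 1 0 0 1 0, Jof 0 1 0 0 0 0, Jof 0 0 1 1 0 0, Jof 0 0 0 1 1 1,
    Jof 0 0 0 1 0 0, Jof 0 0 1 0 0 0, Jof 0 0 0 0 1 0, Jof 0 0 0 0 0 1, Jof 0 0 0 0 0 0]

lemma Jof_map (p q s u k l : ℤ) : (Jof p q s u k l).map (Int.cast : ℤ → ℝ) =
    !![1, (p : ℝ), q, s; (p : ℝ), 1, u, k; (q : ℝ), u, 1, l; (s : ℝ), k, l, 1] := by
  ext i j
  fin_cases i <;> fin_cases j <;> simp [Jof]

lemma RT_eq (ends : E → Sym2 V) (S : Finset E) (a b c d : V) (A : Matrix (Fin 4) (Fin 4) ℝ) :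
    RT ends S ![a, b, c, d] A =
      ∑ i, pv ends S a b c d i * (1 + (Jz i).map (Int.cast : ℤ → ℝ) * A).det := by
  have h := expand ends S a b c d (fun p q s u k l =>
    (1 + (!![1,p,q,s; p,1,u,k; q,u,1,l; s,k,l,1] : Matrix (Fin 4) (Fin 4) ℝ) * A).det)
  have h2 : RT ends S ![a, b, c, d] A = ∑ F ∈ S.powerset with Forest ends F,
      (1 + (!![1,(ind (Conn ends F a b)),(ind (Conn ends F a c)),(ind (Conn ends F a d));
        (ind (Conn ends F a b)),1,(ind (Conn ends F b c)),(ind (Conn ends F b d));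
        (ind (Conn ends F a c)),(ind (Conn ends F b c)),1,(ind (Conn ends F c d));
        (ind (Conn ends F a d)),(ind (Conn ends F b d)),(ind (Conn ends F c d)),1] :
        Matrix (Fin 4) (Fin 4) ℝ) * A).det := by
    rw [RT]
    refine Finset.sum_congr rfl fun F _ => ?_
    rw [CM4]
  rw [h2, h, sum15]
  have e (p q s u k l : ℤ) (p' q' s' u' k' l' : ℝ) (hp : (p : ℝ) = p') (hq : (q : ℝ) = q')
      (hs : (s : ℝ) = s') (hu : (u : ℝ) = u') (hk : (k : ℝ) = k') (hl : (l : ℝ) = l') :
      (1 + (!![1,p',q',s'; p',1,u',k'; q',u',1,l'; s',k',l',1] : Matrix (Fin 4) (Fin 4) ℝ)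
        * A).det = (1 + (Jof p q s u k l).map (Int.cast : ℤ → ℝ) * A).det := by
    rw [Jof_map, hp, hq, hs, hu, hk, hl]
  rw [e 1 1 1 1 1 1 1 1 1 1 1 1 (by norm_num) (by norm_num) (by norm_num) (by norm_num)
      (by norm_num) (by norm_num),
    e 1 1 0 1 0 0 1 1 0 1 0 0 (by norm_num) (by norm_num) (by norm_num) (by norm_num)
      (by norm_num) (by norm_num),
    e 1 0 1 0 1 0 1 0 1 0 1 0 (by norm_num) (by norm_num) (by norm_num) (by norm_num)
      (by norm_num) (by norm_num),
    e 1 0 0 0 0 1 1 0 0 0 0 1 (by norm_num) (by norm_num) (by norm_num) (by norm_num)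
      (by norm_num) (by norm_num),
    e 1 0 0 0 0 0 1 0 0 0 0 0 (by norm_num) (by norm_num) (by norm_num) (by norm_num)
      (by norm_num) (by norm_num),
    e 0 1 1 0 0 1 0 1 1 0 0 1 (by norm_num) (by norm_num) (by norm_num) (by norm_num)
      (by norm_num) (by norm_num),
    e 0 1 0 0 1 0 0 1 0 0 1 0 (by norm_num) (by norm_num) (by norm_num) (by norm_num)
      (by norm_num) (by norm_num),
    e 0 1 0 0 0 0 0 1 0 0 0 0 (by norm_num) (by norm_num) (by norm_num) (by norm_num)
      (by norm_num) (by norm_num),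
    e 0 0 1 1 0 0 0 0 1 1 0 0 (by norm_num) (by norm_num) (by norm_num) (by norm_num)
      (by norm_num) (by norm_num),
    e 0 0 0 1 1 1 0 0 0 1 1 1 (by norm_num) (by norm_num) (by norm_num) (by norm_num)
      (by norm_num) (by norm_num),
    e 0 0 0 1 0 0 0 0 0 1 0 0 (by norm_num) (by norm_num) (by norm_num) (by norm_num)
      (by norm_num) (by norm_num),
    e 0 0 1 0 0 0 0 0 1 0 0 0 (by norm_num) (by norm_num) (by norm_num) (by norm_num)
      (by norm_num) (by norm_num),
    e 0 0 0 0 1 0 0 0 0 0 1 0 (by norm_num) (by norm_num) (by norm_num) (by norm_num)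
      (by norm_num) (by norm_num),
    e 0 0 0 0 0 1 0 0 0 0 0 1 (by norm_num) (by norm_num) (by norm_num) (by norm_num)
      (by norm_num) (by norm_num),
    e 0 0 0 0 0 0 0 0 0 0 0 0 (by norm_num) (by norm_num) (by norm_num) (by norm_num)
      (by norm_num) (by norm_num)]
  rfl

/-- The determinant of a `4 × 4` matrix, written out. -/
def d4 (m : Fin 4 → Fin 4 → ℤ) : ℤ :=
  m 0 0 * (m 1 1 * (m 2 2 * m 3 3 - m 2 3 * m 3 2) - m 1 2 * (m 2 1 * m 3 3 - m 2 3 * m 3 1)
      + m 1 3 * (m 2 1 * m 3 2 - m 2 2 * m 3 1))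
    - m 0 1 * (m 1 0 * (m 2 2 * m 3 3 - m 2 3 * m 3 2) - m 1 2 * (m 2 0 * m 3 3 - m 2 3 * m 3 0)
      + m 1 3 * (m 2 0 * m 3 2 - m 2 2 * m 3 0))
    + m 0 2 * (m 1 0 * (m 2 1 * m 3 3 - m 2 3 * m 3 1) - m 1 1 * (m 2 0 * m 3 3 - m 2 3 * m 3 0)
      + m 1 3 * (m 2 0 * m 3 1 - m 2 1 * m 3 0))
    - m 0 3 * (m 1 0 * (m 2 1 * m 3 2 - m 2 2 * m 3 1) - m 1 1 * (m 2 0 * m 3 2 - m 2 2 * m 3 0)
      + m 1 2 * (m 2 0 * m 3 1 - m 2 1 * m 3 0))

lemma det_eq_d4 (M : Matrix (Fin 4) (Fin 4) ℤ) : M.det = d4 fun i j => M i j := by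
  simp [d4, Matrix.det_succ_row_zero, Fin.sum_univ_succ, Fin.succAbove]
  ring

/-- `det (D + J N)` for the pattern `i`. -/
def dz (D : ℤ) (N : Matrix (Fin 4) (Fin 4) ℤ) (i : Fin 15) : ℤ :=
  d4 fun r c => (if r = c then D else 0) + (Jz i r 0 * N 0 c + Jz i r 1 * N 1 c
    + Jz i r 2 * N 2 c + Jz i r 3 * N 3 c)

lemma dz_eq (D : ℤ) (hD : D ≠ 0) (N : Matrix (Fin 4) (Fin 4) ℤ) (i : Fin 15) :
    (dz D N i : ℝ) = (D : ℝ) ^ 4 *
      (1 + (Jz i).map (Int.cast : ℤ → ℝ) * ((D : ℝ)⁻¹ • N.map (Int.cast : ℤ → ℝ))).det := by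
  have hD' : (D : ℝ) ≠ 0 := by exact_mod_cast hD
  have h1 : dz D N i = (D • (1 : Matrix (Fin 4) (Fin 4) ℤ) + Jz i * N).det := by
    rw [det_eq_d4, dz]
    congr 1
    funext r c
    simp only [Matrix.add_apply, Matrix.smul_apply, Matrix.one_apply, Matrix.mul_apply,
      Fin.sum_univ_four, smul_eq_mul, mul_ite, mul_one, mul_zero]
  have h2 : ((D • (1 : Matrix (Fin 4) (Fin 4) ℤ) + Jz i * N).det : ℝ) =
      ((D • (1 : Matrix (Fin 4) (Fin 4) ℤ) + Jz i * N).map (Int.cast : ℤ → ℝ)).det := by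
    exact Int.cast_det _
  have h3 : (D • (1 : Matrix (Fin 4) (Fin 4) ℤ) + Jz i * N).map (Int.cast : ℤ → ℝ) =
      (D : ℝ) • (1 + (Jz i).map (Int.cast : ℤ → ℝ) *
        ((D : ℝ)⁻¹ • N.map (Int.cast : ℤ → ℝ))) := by
    ext r c
    simp only [Matrix.map_apply, Matrix.add_apply, Matrix.smul_apply, Matrix.mul_apply,
      Int.cast_add, Int.cast_sum, Int.cast_mul, smul_eq_mul, mul_add, Finset.mul_sum]
    congr 1
    · rw [Matrix.one_apply, Matrix.one_apply]
      split_ifs <;> simp
    · refine Finset.sum_congr rfl fun k _ => ?_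
      field_simp
  rw [h1, h2, h3, Matrix.det_smul, Fintype.card_fin]

lemma lf_dz (ends : E → Sym2 V) (S : Finset E) (a b c d : V) (D : ℤ) (hD : D ≠ 0)
    (N : Matrix (Fin 4) (Fin 4) ℤ) :
    lf (dz D N) (pv ends S a b c d) = (D : ℝ) ^ 4 *
      RT ends S ![a, b, c, d] ((D : ℝ)⁻¹ • N.map (Int.cast : ℤ → ℝ)) := by
  rw [lf, RT_eq, Finset.mul_sum]
  refine Finset.sum_congr rfl fun i _ => ?_
  rw [dz_eq D hD]
  ring

/-- The Rayleigh inequality at `N / D` in the directions `v`, `w`. -/
lemma H_ineq [Fintype V] (ends : E → Sym2 V) (S : Finset E) (a b c d : V) (D : ℤ) (hD : D ≠ 0)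
    (N : Matrix (Fin 4) (Fin 4) ℤ) (hN : N.IsSymm) (v w : Fin 4 → ℤ) :
    lf (dz D N) (pv ends S a b c d) *
        lf (dz D (N + D • vecMulVec v v + D • vecMulVec w w)) (pv ends S a b c d) ≤
      lf (dz D (N + D • vecMulVec v v)) (pv ends S a b c d) *
        lf (dz D (N + D • vecMulVec w w)) (pv ends S a b c d) := by
  have hD' : (D : ℝ) ≠ 0 := by exact_mod_cast hD
  have hs : ((D : ℝ)⁻¹ • N.map (Int.cast : ℤ → ℝ)).IsSymm := by
    ext i j
    have := congrFun (congrFun hN i) j
    simp only [Matrix.transpose_apply] at this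
    simp [this]
  have h := rayleighT ends S ![a, b, c, d] _ hs (fun i => (v i : ℝ)) (fun i => (w i : ℝ))
  have e1 : ∀ (M : Matrix (Fin 4) (Fin 4) ℤ) (u : Fin 4 → ℤ),
      (D : ℝ)⁻¹ • M.map (Int.cast : ℤ → ℝ) + vecMulVec (fun i => (u i : ℝ)) (fun i => (u i : ℝ))
        = (D : ℝ)⁻¹ • (M + D • vecMulVec u u).map (Int.cast : ℤ → ℝ) := by
    intro M u
    ext i j
    simp only [Matrix.map_apply, Matrix.add_apply, Matrix.smul_apply, Matrix.vecMulVec_apply,
      Int.cast_add, Int.cast_mul, smul_eq_mul]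
    field_simp
  rw [e1, e1, e1] at h
  rw [lf_dz _ _ _ _ _ _ D hD, lf_dz _ _ _ _ _ _ D hD, lf_dz _ _ _ _ _ _ D hD,
    lf_dz _ _ _ _ _ _ D hD]
  have hp : (0 : ℝ) ≤ (D : ℝ) ^ 4 * (D : ℝ) ^ 4 := by positivity
  have := mul_le_mul_of_nonneg_left h hp
  linarith

lemma xb_ba (ends : E → Sym2 V) (S : Finset E) (a b c d : V) (f1 f2 f3 f4 f5 f6 : Bool) :
    xb ends S b a c d f1 f2 f3 f4 f5 f6 = xb ends S a b c d f1 f4 f5 f2 f3 f6 := by
  unfold xb xs
  refine Finset.sum_congr rfl fun F _ => ?_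
  rw [ind_comm ends F b a]
  ring

lemma xb_dc (ends : E → Sym2 V) (S : Finset E) (a b c d : V) (f1 f2 f3 f4 f5 f6 : Bool) :
    xb ends S a b d c f1 f2 f3 f4 f5 f6 = xb ends S a b c d f1 f3 f2 f5 f4 f6 := by
  unfold xb xs
  refine Finset.sum_congr rfl fun F _ => ?_
  rw [ind_comm ends F d c]
  ring

lemma xb_cdab (ends : E → Sym2 V) (S : Finset E) (a b c d : V) (f1 f2 f3 f4 f5 f6 : Bool) :
    xb ends S c d a b f1 f2 f3 f4 f5 f6 = xb ends S a b c d f6 f2 f4 f3 f5 f1 := by
  unfold xb xs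
  refine Finset.sum_congr rfl fun F _ => ?_
  rw [ind_comm ends F c a, ind_comm ends F c b, ind_comm ends F d a, ind_comm ends F d b]
  ring

/-- The exchange of the first two vertices. -/
def ga : Fin 15 → Fin 15 := ![0, 1, 2, 3, 4, 9, 8, 10, 6, 5, 7, 12, 11, 13, 14]

/-- The exchange of the last two vertices. -/
def gc : Fin 15 → Fin 15 := ![0, 2, 1, 3, 4, 5, 8, 11, 6, 9, 12, 7, 10, 13, 14]

/-- The exchange of the two pairs. -/
def gs : Fin 15 → Fin 15 := ![0, 5, 9, 3, 13, 1, 6, 7, 8, 2, 11, 10, 12, 4, 14]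

lemma pv_ga (ends : E → Sym2 V) (S : Finset E) (a b c d : V) :
    pv ends S b a c d = pv ends S a b c d ∘ ga := by
  funext i
  fin_cases i <;> exact xb_ba ends S a b c d _ _ _ _ _ _

lemma pv_gc (ends : E → Sym2 V) (S : Finset E) (a b c d : V) :
    pv ends S a b d c = pv ends S a b c d ∘ gc := by
  funext i
  fin_cases i <;> exact xb_dc ends S a b c d _ _ _ _ _ _

lemma pv_gs (ends : E → Sym2 V) (S : Finset E) (a b c d : V) :
    pv ends S c d a b = pv ends S a b c d ∘ gs := by
  funext i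
  fin_cases i <;> exact xb_cdab ends S a b c d _ _ _ _ _ _

/-- The symmetric matrix with the given upper triangle. -/
def sym4 (a b c d e f g h i j : ℤ) : Matrix (Fin 4) (Fin 4) ℤ :=
  !![a, b, c, d; b, e, f, g; c, f, h, i; d, g, i, j]

lemma sym4_symm (a b c d e f g h i j : ℤ) : (sym4 a b c d e f g h i j).IsSymm := by
  ext r s
  fin_cases r <;> fin_cases s <;> rfl

lemma sym4_add1 (D a b c d e f g h i j : ℤ) :
    sym4 a b c d e f g h i j + D • vecMulVec ![1, -1, 0, 0] ![1, -1, 0, 0] =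
      sym4 (a + D) (b - D) c d (e + D) f g h i j := by
  ext r s
  fin_cases r <;> fin_cases s <;> simp [sym4] <;> ring

lemma sym4_add2 (D a b c d e f g h i j : ℤ) :
    sym4 a b c d e f g h i j + D • vecMulVec ![0, 0, 1, -1] ![0, 0, 1, -1] =
      sym4 a b c d e f g (h + D) (i - D) (j + D) := by
  ext r s
  fin_cases r <;> fin_cases s <;> simp [sym4] <;> ring

/-- The matrix of a row of a table, with `t` and `r` times the two rank one matrices. -/
def nm (NT c : ℕ) (t r : ℤ) : Matrix (Fin 4) (Fin 4) ℤ :=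
  sym4 (ent NT (10 * c) + t) (ent NT (10 * c + 1) - t) (ent NT (10 * c + 2))
    (ent NT (10 * c + 3)) (ent NT (10 * c + 4) + t) (ent NT (10 * c + 5)) (ent NT (10 * c + 6))
    (ent NT (10 * c + 7) + r) (ent NT (10 * c + 8) - r) (ent NT (10 * c + 9) + r)

variable (ends : E → Sym2 V) (S : Finset E)

lemma hq_nonneg [Fintype V] (a b c d : V) (D : ℤ) (hD : D ≠ 0) (H0 H1 H2 H3 NT k : ℕ)
    (h0 : ∀ i, dz D (nm NT k 0 0) i = row H0 k i) (h1 : ∀ i, dz D (nm NT k D 0) i = row H1 k i)
    (h2 : ∀ i, dz D (nm NT k 0 D) i = row H2 k i) (h3 : ∀ i, dz D (nm NT k D D) i = row H3 k i) :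
    0 ≤ hq H0 H1 H2 H3 k (pv ends S a b c d) := by
  have h := H_ineq ends S a b c d D hD (nm NT k 0 0) (sym4_symm _ _ _ _ _ _ _ _ _ _)
    ![1, -1, 0, 0] ![0, 0, 1, -1]
  have e1 : nm NT k 0 0 + D • vecMulVec ![1, -1, 0, 0] ![1, -1, 0, 0] = nm NT k D 0 := by
    rw [nm, sym4_add1, nm]
    simp
  have e2 : nm NT k 0 0 + D • vecMulVec ![0, 0, 1, -1] ![0, 0, 1, -1] = nm NT k 0 D := by
    rw [nm, sym4_add2, nm]
    simp
  have e3 : nm NT k D 0 + D • vecMulVec ![0, 0, 1, -1] ![0, 0, 1, -1] = nm NT k D D := by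
    rw [nm, sym4_add2, nm]
    simp
  rw [e1, e2, e3, funext h0, funext h1, funext h2, funext h3] at h
  rw [hq]
  linarith

lemma lf_bits (N : ℕ) (l : List (Fin 15)) (hn : l.Nodup)
    (hl : ∀ i : Fin 15, bt N i.val = if i ∈ l then 1 else 0) (x : Fin 15 → ℝ) :
    lf (bv N) x = (l.map x).sum := by
  rw [lf, ← List.sum_toFinset _ hn]
  rw [← Finset.sum_subset (Finset.subset_univ l.toFinset)]
  · refine Finset.sum_congr rfl fun i hi => ?_
    rw [bv, hl, if_pos (List.mem_toFinset.mp hi)]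
    simp
  · intro i _ hi
    rw [bv, hl, if_neg (fun h => hi (List.mem_toFinset.mpr h))]
    simp

lemma pv_0 (a b c d : V) : pv ends S a b c d 0 = xb ends S a b c d true true true true true true := rfl

lemma pv_1 (a b c d : V) : pv ends S a b c d 1 = xb ends S a b c d true true false true false false := rfl

lemma pv_2 (a b c d : V) : pv ends S a b c d 2 = xb ends S a b c d true false true false true false := rfl

lemma pv_3 (a b c d : V) : pv ends S a b c d 3 = xb ends S a b c d true false false false false true := rfl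

lemma pv_4 (a b c d : V) : pv ends S a b c d 4 = xb ends S a b c d true false false false false false := rfl

lemma pv_5 (a b c d : V) : pv ends S a b c d 5 = xb ends S a b c d false true true false false true := rfl

lemma pv_6 (a b c d : V) : pv ends S a b c d 6 = xb ends S a b c d false true false false true false := rfl

lemma pv_7 (a b c d : V) : pv ends S a b c d 7 = xb ends S a b c d false true false false false false := rfl

lemma pv_8 (a b c d : V) : pv ends S a b c d 8 = xb ends S a b c d false false true true false false := rfl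

lemma pv_9 (a b c d : V) : pv ends S a b c d 9 = xb ends S a b c d false false false true true true := rfl

lemma pv_10 (a b c d : V) : pv ends S a b c d 10 = xb ends S a b c d false false false true false false := rfl

lemma pv_11 (a b c d : V) : pv ends S a b c d 11 = xb ends S a b c d false false true false false false := rfl

lemma pv_12 (a b c d : V) : pv ends S a b c d 12 = xb ends S a b c d false false false false true false := rfl

lemma pv_13 (a b c d : V) : pv ends S a b c d 13 = xb ends S a b c d false false false false false true := rfl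

lemma pv_14 (a b c d : V) : pv ends S a b c d 14 = xb ends S a b c d false false false false false false := rfl

set_option linter.unusedSimpArgs false in
lemma kq1_nonneg [Fintype V] {a b c : V} (d : V) (h1 : a ≠ b) (h2 : b ≠ c) (h3 : c ≠ a) :
    0 ≤ kq 3 30720 28 1792 224 (pv ends S a b c d) := by
  have h := K_abc ends S (d := d) h1 h2 h3
  rw [kq,
    lf_bits 3 [0, 1] (by decide) (by decide),
    lf_bits 30720 [11, 12, 13, 14] (by decide) (by decide),
    lf_bits 28 [2, 3, 4] (by decide) (by decide),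
    lf_bits 1792 [8, 9, 10] (by decide) (by decide),
    lf_bits 224 [5, 6, 7] (by decide) (by decide)]
  simp only [List.map_cons, List.map_nil, List.sum_cons, List.sum_nil, pv_0, pv_1, pv_2, pv_3, pv_4, pv_5, pv_6, pv_7, pv_8, pv_9, pv_10, pv_11, pv_12, pv_13, pv_14]
  linarith

set_option linter.unusedSimpArgs false in
lemma kq2_nonneg [Fintype V] {a b c d : V} (h1 : a ≠ c) (h2 : c ≠ d) (h3 : d ≠ a) (hxw : a ≠ b) (hyw : c ≠ b) (hzw : d ≠ b) :
    0 ≤ kq 864 16384 1152 8192 6144 (pv ends S a b c d) := by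
  have h := M_acdb ends S h1 h2 h3 hxw hyw hzw
  rw [kq,
    lf_bits 864 [5, 6, 8, 9] (by decide) (by decide),
    lf_bits 16384 [14] (by decide) (by decide),
    lf_bits 1152 [7, 10] (by decide) (by decide),
    lf_bits 8192 [13] (by decide) (by decide),
    lf_bits 6144 [11, 12] (by decide) (by decide)]
  simp only [List.map_cons, List.map_nil, List.sum_cons, List.sum_nil, pv_0, pv_1, pv_2, pv_3, pv_4, pv_5, pv_6, pv_7, pv_8, pv_9, pv_10, pv_11, pv_12, pv_13, pv_14]
  linarith

set_option linter.unusedSimpArgs false in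
lemma kq3_nonneg [Fintype V] {a b c d : V} (h1 : a ≠ b) (h2 : b ≠ d) (h3 : d ≠ a) (hxw : a ≠ c) (hyw : b ≠ c) (hzw : d ≠ c) :
    0 ≤ kq 780 16384 1040 4096 10240 (pv ends S a b c d) := by
  have h := M_abdc ends S h1 h2 h3 hxw hyw hzw
  rw [kq,
    lf_bits 780 [2, 3, 8, 9] (by decide) (by decide),
    lf_bits 16384 [14] (by decide) (by decide),
    lf_bits 1040 [4, 10] (by decide) (by decide),
    lf_bits 4096 [12] (by decide) (by decide),
    lf_bits 10240 [11, 13] (by decide) (by decide)]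
  simp only [List.map_cons, List.map_nil, List.sum_cons, List.sum_nil, pv_0, pv_1, pv_2, pv_3, pv_4, pv_5, pv_6, pv_7, pv_8, pv_9, pv_10, pv_11, pv_12, pv_13, pv_14]
  linarith

end Pool.Agent.Lib.MP_d90615_co.PC
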