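import Pool.Agent.Lib.MP_d90615_co.PC.Data
import Pool.Agent.Lib.MP_d90615_co.Mg.G033

/-!
The certificate: `31 z z_ef ≤ 32 z_e z_f`.
-/

namespace Pool.Agent.Lib.MP_d90615_co.PC

open Matrix Finset
open scoped Classical

lemma chkF' (i j l : Fin 15) : fE H0 H1 H2 H3 KT 14 32 31 i.val j.val l.val =
    ent3 FT i.val j.val l.val := by
  have h1 := allT_spec chkF i.val i.isLt
  have h2 := allT_spec h1 j.val j.isLt
  have h3 := allT_spec h2 l.val l.isLt
  exact of_decide_eq_true h3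

/-- The symmetrised coefficient. -/
def S3 (i j l : ℕ) : ℤ := sumT 8 fun k => sy3 FT (qn k i) (qn k j) (qn k l)

lemma S3_swap (i j l : ℕ) : S3 j i l = S3 i j l := by
  rw [S3, S3]
  congr 1
  funext k
  simp only [sy3]
  ring

lemma S3_swap' (i j l : ℕ) : S3 i l j = S3 i j l := by
  rw [S3, S3]
  congr 1
  funext k
  simp only [sy3]
  ring

lemma S3_sorted {i j l : ℕ} (hij : i ≤ j) (hjl : j ≤ l) (hl : l < 15) : 0 ≤ S3 i j l := by
  have h1 := allT_spec chkS l hl
  have h2 := allT_spec h1 j (Nat.lt_succ_of_le hjl)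
  have h3 := allT_spec h2 i (Nat.lt_succ_of_le hij)
  exact of_decide_eq_true h3

lemma S3_nonneg {i j l : ℕ} (hi : i < 15) (hj : j < 15) (hl : l < 15) : 0 ≤ S3 i j l := by
  rcases le_total i j with h1 | h1
  · rcases le_total j l with h2 | h2
    · exact S3_sorted h1 h2 hl
    · rcases le_total i l with h3 | h3
      · rw [← S3_swap']
        exact S3_sorted h3 h2 hj
      · rw [← S3_swap', ← S3_swap]
        exact S3_sorted h3 h1 hj
  · rcases le_total i l with h2 | h2
    · rw [← S3_swap]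
      exact S3_sorted h1 h2 hl
    · rcases le_total j l with h3 | h3
      · rw [← S3_swap, ← S3_swap']
        exact S3_sorted h3 h2 hi
      · rw [← S3_swap, ← S3_swap', ← S3_swap]
        exact S3_sorted h3 h1 hi

/-- The eight permutations. -/
def gg : Fin 8 → Fin 15 → Fin 15 :=
  ![id, ga, gc, ga ∘ gc, gs, gs ∘ ga, gs ∘ gc, gs ∘ ga ∘ gc]

/-- Their inverses. -/
def qq (k : Fin 8) (i : Fin 15) : Fin 15 := Fin.ofNat 15 (qn k.val i.val)

lemma qq_gg : ∀ k i, qq k (gg k i) = i := by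
  decide +kernel

lemma qq_val : ∀ k i, (qq k i).val = qn k.val i.val := by
  decide +kernel

lemma gg_bij (k : Fin 8) : Function.Bijective (gg k) :=
  Finite.injective_iff_bijective.mp (Function.LeftInverse.injective (qq_gg k))

/-- The value of the certificate at a vector of nonnegative numbers. -/
lemma sum_cf_nonneg (x : Fin 15 → ℝ) (hx : ∀ i, 0 ≤ x i) :
    0 ≤ ∑ k, cf (fun i j l => fE H0 H1 H2 H3 KT 14 32 31 i.val j.val l.val) (x ∘ gg k) := by
  refine sum_perm_nonneg _ x hx gg qq gg_bij qq_gg ?_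
  intro i j l
  have h := S3_nonneg i.isLt j.isLt l.isLt
  rw [S3, sumT_eq, ← Fin.sum_univ_eq_sum_range
    (fun k => sy3 FT (qn k i.val) (qn k j.val) (qn k l.val))] at h
  refine h.trans_eq (Finset.sum_congr rfl fun k _ => ?_)
  simp only [chkF']
  simp only [qq_val, sy3]

/-- The wanted form. -/
noncomputable def tq (x : Fin 15 → ℝ) : ℝ :=
  ((32 : ℤ) : ℝ) * (lf (bv 32736) x * lf (bv 24022) x)
    - ((31 : ℤ) : ℝ) * (lf (bv 32767) x * lf (bv 23680) x)

/-- The known inequalities at `x`. -/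
def Good (x : Fin 15 → ℝ) : Prop :=
  (∀ i, 0 ≤ x i) ∧ 0 ≤ kq 3 30720 28 1792 224 x ∧ 0 ≤ kq 864 16384 1152 8192 6144 x ∧
    0 ≤ kq 780 16384 1040 4096 10240 x ∧ ∀ c < 14, 0 ≤ hq H0 H1 H2 H3 c x

lemma row_nonneg {c : ℕ} (hc : c < 18) (i : Fin 15) : 0 ≤ row KT c i :=
  chkK ⟨c, hc⟩ i

lemma cf_le (x : Fin 15 → ℝ) (hx : Good x) :
    cf (fun i j l => fE H0 H1 H2 H3 KT 14 32 31 i.val j.val l.val) x ≤
      tq x * lf (row KT 0) x := by
  obtain ⟨h0, h1, h2, h3, h4⟩ := hx
  rw [cf_fE]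
  have k1 := mul_nonneg h1 (lf_nonneg (row_nonneg (c := 1) (by norm_num)) h0)
  have k2 := mul_nonneg h2 (lf_nonneg (row_nonneg (c := 2) (by norm_num)) h0)
  have k3 := mul_nonneg h3 (lf_nonneg (row_nonneg (c := 3) (by norm_num)) h0)
  have k4 : 0 ≤ ∑ c ∈ range 14, hq H0 H1 H2 H3 c x * lf (row KT (4 + c)) x := by
    refine Finset.sum_nonneg fun c hc => ?_
    have hc' := Finset.mem_range.mp hc
    exact mul_nonneg (h4 c hc') (lf_nonneg (row_nonneg (by omega)) h0)
  rw [tq]
  linarith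

lemma lf_perm (h : Fin 15 → ℤ) (x : Fin 15 → ℝ) (g : Fin 15 → Fin 15)
    (hg : ∀ i, g (g i) = i) : lf h (x ∘ g) = lf (h ∘ g) x := by
  have hb : Function.Bijective g :=
    Finite.injective_iff_bijective.mp (Function.LeftInverse.injective hg)
  rw [lf, lf, ← hb.sum_comp]
  refine Finset.sum_congr rfl fun i _ => ?_
  simp only [Function.comp, hg]

lemma tq_ga (x : Fin 15 → ℝ) : tq (x ∘ ga) = tq x := by
  have hg : ∀ i, ga (ga i) = i := by decide
  rw [tq, tq, lf_perm _ _ _ hg, lf_perm _ _ _ hg, lf_perm _ _ _ hg, lf_perm _ _ _ hg]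
  have e1 : bv 32736 ∘ ga = bv 32736 := by decide
  have e2 : bv 24022 ∘ ga = bv 24022 := by decide
  have e3 : bv 32767 ∘ ga = bv 32767 := by decide
  have e4 : bv 23680 ∘ ga = bv 23680 := by decide
  rw [e1, e2, e3, e4]

lemma tq_gc (x : Fin 15 → ℝ) : tq (x ∘ gc) = tq x := by
  have hg : ∀ i, gc (gc i) = i := by decide
  rw [tq, tq, lf_perm _ _ _ hg, lf_perm _ _ _ hg, lf_perm _ _ _ hg, lf_perm _ _ _ hg]
  have e1 : bv 32736 ∘ gc = bv 32736 := by decide
  have e2 : bv 24022 ∘ gc = bv 24022 := by decide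
  have e3 : bv 32767 ∘ gc = bv 32767 := by decide
  have e4 : bv 23680 ∘ gc = bv 23680 := by decide
  rw [e1, e2, e3, e4]

lemma tq_gs (x : Fin 15 → ℝ) : tq (x ∘ gs) = tq x := by
  have hg : ∀ i, gs (gs i) = i := by decide
  rw [tq, tq, lf_perm _ _ _ hg, lf_perm _ _ _ hg, lf_perm _ _ _ hg, lf_perm _ _ _ hg]
  have e1 : bv 32736 ∘ gs = bv 24022 := by decide
  have e2 : bv 24022 ∘ gs = bv 32736 := by decide
  have e3 : bv 32767 ∘ gs = bv 32767 := by decide
  have e4 : bv 23680 ∘ gs = bv 23680 := by decide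
  rw [e1, e2, e3, e4]
  ring

lemma gg_cases {P : (Fin 15 → Fin 15) → Prop} (h0 : P id) (h1 : P ga) (h2 : P gc)
    (h3 : P (ga ∘ gc)) (h4 : P gs) (h5 : P (gs ∘ ga)) (h6 : P (gs ∘ gc))
    (h7 : P (gs ∘ ga ∘ gc)) (k : Fin 8) : P (gg k) := by
  fin_cases k
  · exact h0
  · exact h1
  · exact h2
  · exact h3
  · exact h4
  · exact h5
  · exact h6
  · exact h7

lemma tq_gg (x : Fin 15 → ℝ) (k : Fin 8) : tq (x ∘ gg k) = tq x := by
  refine gg_cases (P := fun g => tq (x ∘ g) = tq x) ?_ (tq_ga x) (tq_gc x) ?_ (tq_gs x) ?_ ?_ ?_ k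
  · rw [Function.comp_id]
  · rw [← Function.comp_assoc, tq_gc, tq_ga]
  · rw [← Function.comp_assoc, tq_ga, tq_gs]
  · rw [← Function.comp_assoc, tq_gc, tq_gs]
  · rw [← Function.comp_assoc, ← Function.comp_assoc, tq_gc, tq_ga, tq_gs]

/-- The wanted form is nonnegative where the known inequalities hold at all eight images. -/
theorem tq_nonneg (x : Fin 15 → ℝ) (hx : ∀ k, Good (x ∘ gg k)) (hp : 0 < ∑ i, x i) :
    0 ≤ tq x := by
  have hx0 : ∀ i, 0 ≤ x i := (hx 0).1
  have h1 := sum_cf_nonneg x hx0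
  have h2 : ∑ k, cf (fun i j l => fE H0 H1 H2 H3 KT 14 32 31 i.val j.val l.val) (x ∘ gg k) ≤
      tq x * ∑ k, lf (row KT 0) (x ∘ gg k) := by
    rw [Finset.mul_sum]
    refine Finset.sum_le_sum fun k _ => ?_
    rw [← tq_gg x k]
    exact cf_le _ (hx k)
  have h3 : ∀ k, 0 ≤ lf (row KT 0) (x ∘ gg k) := fun k =>
    lf_nonneg (row_nonneg (by norm_num)) (hx k).1
  have h4 : 0 < lf (row KT 0) (x ∘ gg 0) := by
    refine hp.trans_le (Finset.sum_le_sum fun i _ => ?_)
    have h5 : (1 : ℝ) ≤ (row KT 0 i : ℝ) := by exact_mod_cast chkK0 i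
    exact le_mul_of_one_le_left (hx0 i) h5
  have h6 : 0 < ∑ k, lf (row KT 0) (x ∘ gg k) :=
    Finset.sum_pos' (fun k _ => h3 k) ⟨0, Finset.mem_univ _, h4⟩
  exact nonneg_of_mul_nonneg_left (h1.trans h2) h6

variable {V E : Type*}

lemma good_pv [Fintype V] (ends : E → Sym2 V) (S : Finset E) {a b c d : V} (hab : a ≠ b)
    (hac : a ≠ c) (had : a ≠ d) (hbc : b ≠ c) (hbd : b ≠ d) (hcd : c ≠ d) :
    Good (pv ends S a b c d) := by
  refine ⟨pv_nonneg ends S a b c d, kq1_nonneg ends S d hab hbc hac.symm,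
    kq2_nonneg ends S hac hcd had.symm hab hbc.symm hbd.symm,
    kq3_nonneg ends S hab hbd had.symm hac hbc hcd.symm, ?_⟩
  intro k hk
  exact hq_nonneg ends S a b c d 20 (by norm_num) H0 H1 H2 H3 NT k (chkH0 ⟨k, hk⟩)
    (chkH1 ⟨k, hk⟩) (chkH2 ⟨k, hk⟩) (chkH3 ⟨k, hk⟩)

lemma good_gg [Fintype V] (ends : E → Sym2 V) (S : Finset E) {a b c d : V} (hab : a ≠ b)
    (hac : a ≠ c) (had : a ≠ d) (hbc : b ≠ c) (hbd : b ≠ d) (hcd : c ≠ d) (k : Fin 8) :
    Good (pv ends S a b c d ∘ gg k) := by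
  have e1 : ∀ a b c d : V, pv ends S a b c d ∘ ga = pv ends S b a c d := fun a b c d =>
    (pv_ga ends S a b c d).symm
  have e2 : ∀ a b c d : V, pv ends S a b c d ∘ gc = pv ends S a b d c := fun a b c d =>
    (pv_gc ends S a b c d).symm
  have e3 : ∀ a b c d : V, pv ends S a b c d ∘ gs = pv ends S c d a b := fun a b c d =>
    (pv_gs ends S a b c d).symm
  refine gg_cases (P := fun g => Good (pv ends S a b c d ∘ g)) ?_ ?_ ?_ ?_ ?_ ?_ ?_ ?_ k
  · rw [Function.comp_id]
    exact good_pv ends S hab hac had hbc hbd hcd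
  · rw [e1]
    exact good_pv ends S hab.symm hbc hbd hac had hcd
  · rw [e2]
    exact good_pv ends S hab had hac hbd hbc hcd.symm
  · rw [← Function.comp_assoc, e1, e2]
    exact good_pv ends S hab.symm hbd hbc had hac hcd.symm
  · rw [e3]
    exact good_pv ends S hcd hac.symm hbc.symm had.symm hbd.symm hab
  · rw [← Function.comp_assoc, e3, e1]
    exact good_pv ends S hcd.symm had.symm hbd.symm hac.symm hbc.symm hab
  · rw [← Function.comp_assoc, e3, e2]
    exact good_pv ends S hcd hbc.symm hac.symm hbd.symm had.symm hab.symm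
  · rw [← Function.comp_assoc, ← Function.comp_assoc, e3, e1, e2]
    exact good_pv ends S hcd.symm hbd.symm had.symm hbc.symm hac.symm hab.symm

lemma lf_all (x : Fin 15 → ℝ) : lf (bv 32767) x = ∑ i, x i := by
  have h : ∀ i, bv 32767 i = 1 := by decide
  rw [lf]
  refine Finset.sum_congr rfl fun i _ => ?_
  rw [h]
  simp

lemma sum_one (ends : E → Sym2 V) (S : Finset E) (a b c d : V) :
    (∑ F ∈ S.powerset with Forest ends F, (1 : ℝ)) = lf (bv 32767) (pv ends S a b c d) := by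
  have h := expand ends S a b c d (fun _ _ _ _ _ _ => 1)
  rw [h, lf_all, sum15]
  simp only [pv_0, pv_1, pv_2, pv_3, pv_4, pv_5, pv_6, pv_7, pv_8, pv_9, pv_10, pv_11, pv_12,
    pv_13, pv_14]
  ring

set_option linter.unusedSimpArgs false in
lemma sum_e (ends : E → Sym2 V) (S : Finset E) (a b c d : V) :
    (∑ F ∈ S.powerset with Forest ends F, (if ¬ Conn ends F a b then 1 else 0 : ℝ)) =
      lf (bv 32736) (pv ends S a b c d) := by
  have h := expand ends S a b c d (fun p _ _ _ _ _ => 1 - p)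
  have h0 : (∑ F ∈ S.powerset with Forest ends F, (if ¬ Conn ends F a b then 1 else 0 : ℝ)) =
      ∑ F ∈ S.powerset with Forest ends F, (1 - ind (Conn ends F a b)) := by
    refine Finset.sum_congr rfl fun F _ => ?_
    unfold ind
    split_ifs <;> norm_num
  rw [h0, h, lf_bits 32736 [5, 6, 7, 8, 9, 10, 11, 12, 13, 14] (by decide) (by decide)]
  simp only [List.map_cons, List.map_nil, List.sum_cons, List.sum_nil, pv_0, pv_1, pv_2, pv_3,
    pv_4, pv_5, pv_6, pv_7, pv_8, pv_9, pv_10, pv_11, pv_12, pv_13, pv_14]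
  ring

set_option linter.unusedSimpArgs false in
lemma sum_f (ends : E → Sym2 V) (S : Finset E) (a b c d : V) :
    (∑ F ∈ S.powerset with Forest ends F, (if ¬ Conn ends F c d then 1 else 0 : ℝ)) =
      lf (bv 24022) (pv ends S a b c d) := by
  have h := expand ends S a b c d (fun _ _ _ _ _ l => 1 - l)
  have h0 : (∑ F ∈ S.powerset with Forest ends F, (if ¬ Conn ends F c d then 1 else 0 : ℝ)) =
      ∑ F ∈ S.powerset with Forest ends F, (1 - ind (Conn ends F c d)) := by
    refine Finset.sum_congr rfl fun F _ => ?_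
    unfold ind
    split_ifs <;> norm_num
  rw [h0, h, lf_bits 24022 [1, 2, 4, 6, 7, 8, 10, 11, 12, 14] (by decide) (by decide)]
  simp only [List.map_cons, List.map_nil, List.sum_cons, List.sum_nil, pv_0, pv_1, pv_2, pv_3,
    pv_4, pv_5, pv_6, pv_7, pv_8, pv_9, pv_10, pv_11, pv_12, pv_13, pv_14]
  ring

set_option linter.unusedSimpArgs false in
lemma sum_ef (ends : E → Sym2 V) (S : Finset E) {e : E} {a b : V}
    (he : ends e = s(a, b)) (c d : V) :
    (∑ F ∈ S.powerset with Forest ends F,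
        (if ¬ Conn ends F a b ∧ ¬ Conn ends (insert e F) c d then 1 else 0 : ℝ)) =
      lf (bv 23680) (pv ends S a b c d) := by
  have h := expand ends S a b c d
    (fun p q s u k l => (1 - p) * ((1 - l) * (1 - q * k) * (1 - u * s)))
  have h0 : (∑ F ∈ S.powerset with Forest ends F,
        (if ¬ Conn ends F a b ∧ ¬ Conn ends (insert e F) c d then 1 else 0 : ℝ)) =
      ∑ F ∈ S.powerset with Forest ends F, ((1 - ind (Conn ends F a b)) *
        ((1 - ind (Conn ends F c d)) * (1 - ind (Conn ends F a c) * ind (Conn ends F b d)) *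
          (1 - ind (Conn ends F b c) * ind (Conn ends F a d)))) := by
    refine Finset.sum_congr rfl fun F _ => ?_
    have h1 : Conn ends (insert e F) c d ↔ (Conn ends F c d ∨
        (Conn ends F a c ∧ Conn ends F b d) ∨ (Conn ends F b c ∧ Conn ends F a d)) := by
      rw [conn_insert he]
      constructor
      · rintro (h | ⟨h1, h2⟩ | ⟨h1, h2⟩)
        · exact Or.inl h
        · exact Or.inr (Or.inl ⟨h1.symm, h2⟩)
        · exact Or.inr (Or.inr ⟨h1.symm, h2⟩)
      · rintro (h | ⟨h1, h2⟩ | ⟨h1, h2⟩)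
        · exact Or.inl h
        · exact Or.inr (Or.inl ⟨h1.symm, h2⟩)
        · exact Or.inr (Or.inr ⟨h1.symm, h2⟩)
    rw [h1]
    unfold ind
    by_cases k1 : Conn ends F a b <;> by_cases k2 : Conn ends F c d <;>
      by_cases k3 : Conn ends F a c <;> by_cases k4 : Conn ends F b d <;>
      by_cases k5 : Conn ends F b c <;> by_cases k6 : Conn ends F a d <;>
      simp [k1, k2, k3, k4, k5, k6]
  rw [h0, h, lf_bits 23680 [7, 10, 11, 12, 14] (by decide) (by decide)]
  simp only [List.map_cons, List.map_nil, List.sum_cons, List.sum_nil, pv_0, pv_1, pv_2, pv_3,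
    pv_4, pv_5, pv_6, pv_7, pv_8, pv_9, pv_10, pv_11, pv_12, pv_13, pv_14]
  ring

lemma core_distinct [Fintype V] (ends : E → Sym2 V) (S : Finset E) {e : E} {a b : V}
    (he : ends e = s(a, b)) {c d : V} (hab : a ≠ b) (hac : a ≠ c) (had : a ≠ d) (hbc : b ≠ c)
    (hbd : b ≠ d) (hcd : c ≠ d) :
    (∑ F ∈ S.powerset with Forest ends F, (1 : ℝ)) *
      (∑ F ∈ S.powerset with Forest ends F,
        (if ¬ Conn ends F a b ∧ ¬ Conn ends (insert e F) c d then 1 else 0 : ℝ)) ≤
      32 / 31 * (∑ F ∈ S.powerset with Forest ends F, (if ¬ Conn ends F a b then 1 else 0 : ℝ)) *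
      (∑ F ∈ S.powerset with Forest ends F, (if ¬ Conn ends F c d then 1 else 0 : ℝ)) := by
  have hpos : (0 : ℝ) < ∑ F ∈ S.powerset with Forest ends F, (1 : ℝ) := by
    refine Finset.sum_pos (fun _ _ => one_pos) ⟨∅, ?_⟩
    rw [Finset.mem_filter]
    refine ⟨Finset.empty_mem_powerset S, ?_⟩
    intro g hg
    simp at hg
  rw [sum_e ends S a b c d, sum_f ends S a b c d, sum_ef ends S he c d]
  rw [sum_one ends S a b c d] at hpos ⊢
  have h := tq_nonneg (pv ends S a b c d) (good_gg ends S hab hac had hbc hbd hcd)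
    (by rw [← lf_all]; exact hpos)
  rw [tq] at h
  push_cast at h
  linarith

/-- The bound in terms of the forests of `S ∪ {e, f}`. -/
theorem pairs_bound [Fintype V] (ends : E → Sym2 V) (hloop : ∀ e, ¬ (ends e).IsDiag)
    (S : Finset E) {e f : E} (he : e ∉ insert f S) (hf : f ∉ S) :
    (∑ F ∈ (insert e (insert f S)).powerset,
        (if Forest ends F ∧ e ∈ F ∧ f ∈ F then 1 else 0 : ℝ)) *
      (∑ F ∈ (insert e (insert f S)).powerset, (if Forest ends F then 1 else 0 : ℝ)) ≤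
    32 / 31 * (∑ F ∈ (insert e (insert f S)).powerset,
        (if Forest ends F ∧ e ∈ F then 1 else 0 : ℝ)) *
      (∑ F ∈ (insert e (insert f S)).powerset,
        (if Forest ends F ∧ f ∈ F then 1 else 0 : ℝ)) := by
  obtain ⟨a, b, hab⟩ : ∃ a b, ends e = s(a, b) := by
    induction h : ends e using Sym2.ind with
    | _ u v => exact ⟨u, v, rfl⟩
  obtain ⟨c, d, hcd⟩ : ∃ c d, ends f = s(c, d) := by
    induction h : ends f using Sym2.ind with
    | _ u v => exact ⟨u, v, rfl⟩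
  have nab : a ≠ b := by
    intro h
    apply hloop e
    rw [hab, h]
    exact Sym2.mk_isDiag_iff.mpr rfl
  have ncd : c ≠ d := by
    intro h
    apply hloop f
    rw [hcd, h]
    exact Sym2.mk_isDiag_iff.mpr rfl
  have hadj : ∀ {x y z : V}, ends e = s(x, y) → ends f = s(x, z) →
      (∑ F ∈ (insert e (insert f S)).powerset,
        (if Forest ends F ∧ e ∈ F ∧ f ∈ F then 1 else 0 : ℝ)) *
      (∑ F ∈ (insert e (insert f S)).powerset, (if Forest ends F then 1 else 0 : ℝ)) ≤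
    32 / 31 * (∑ F ∈ (insert e (insert f S)).powerset,
        (if Forest ends F ∧ e ∈ F then 1 else 0 : ℝ)) *
      (∑ F ∈ (insert e (insert f S)).powerset,
        (if Forest ends F ∧ f ∈ F then 1 else 0 : ℝ)) := by
    intro x y z h1 h2
    refine (adjacent ends hloop S he hf h1 h2).trans ?_
    have p1 : 0 ≤ ∑ F ∈ (insert e (insert f S)).powerset,
        (if Forest ends F ∧ e ∈ F then 1 else 0 : ℝ) :=
      Finset.sum_nonneg fun F _ => by split_ifs <;> norm_num
    have p2 : 0 ≤ ∑ F ∈ (insert e (insert f S)).powerset,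
        (if Forest ends F ∧ f ∈ F then 1 else 0 : ℝ) :=
      Finset.sum_nonneg fun F _ => by split_ifs <;> norm_num
    have := mul_nonneg p1 p2
    linarith
  have hba : ends e = s(b, a) := by rw [hab, Sym2.eq_swap]
  have hdc : ends f = s(d, c) := by rw [hcd, Sym2.eq_swap]
  by_cases k1 : a = c
  · exact hadj hab (k1 ▸ hcd)
  by_cases k2 : a = d
  · exact hadj hab (k2 ▸ hdc)
  by_cases k3 : b = c
  · exact hadj hba (k3 ▸ hcd)
  by_cases k4 : b = d
  · exact hadj hba (k4 ▸ hdc)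
  exact two_by_two ends S he hf hab hcd (32 / 31) (by norm_num)
    (core_distinct ends S hab nab k1 k2 k3 k4 ncd)

end Pool.Agent.Lib.MP_d90615_co.PC
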